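import Pool.Agent.H6.FIB.TargetsG

/-!
# Subgroups of `PGL(2, q)` of order divisible by `q` (row DK1 of fib_modules)
-/

set_option autoImplicit false

open scoped Classical ComplexConjugate

namespace Pool.Agent.H2.FIB

open FI

theorem card_fact (q : ℕ) (hq : q.Prime) (h7 : 7 ≤ q) :
    (q * (q * q - 1)).factorization q = 1 := by
  have h1 : q * q - 1 ≠ 0 := by
    have : 7 * 7 ≤ q * q := Nat.mul_le_mul h7 h7
    omega
  have h2 : ¬ q ∣ q * q - 1 := by
    intro h
    have h3 : q ∣ q * q := Dvd.intro q rfl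
    have h4 : q ∣ q * q - (q * q - 1) := Nat.dvd_sub h3 h
    have h5 : q * q - (q * q - 1) = 1 := by omega
    rw [h5] at h4
    have := Nat.le_of_dvd one_pos h4
    omega
  rw [Nat.factorization_mul hq.ne_zero h1]
  simp [hq.factorization, Nat.factorization_eq_zero_of_not_dvd h2]

theorem pf_DK1 (h1 : T_CRD) (h2 : T_UBF) : T_DK1 := by
  intro q hq h7 T hT
  obtain ⟨hfin, hcard, -, hnor⟩ := h1 q hq h7
  obtain ⟨U, B, hUB⟩ := h2 q hq h7
  have : Fact q.Prime := ⟨hq⟩
  obtain ⟨t, ht⟩ := exists_prime_orderOf_dvd_card' (G := T) q hT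
  have hfac : (Nat.card (PG q)).factorization q = 1 := by
    rw [hcard]; exact card_fact q hq h7
  have hU1 : Nat.card U = q ^ (Nat.card (PG q)).factorization q := by
    rw [hfac, pow_one]; exact hUB.crU
  have hV1 : Nat.card (Subgroup.zpowers (t : PG q)) = q ^ (Nat.card (PG q)).factorization q := by
    rw [hfac, pow_one, Nat.card_zpowers, Subgroup.orderOf_coe]; exact ht
  obtain ⟨g, hg⟩ := MulAction.exists_smul_eq (PG q)
    (Sylow.ofCard (Subgroup.zpowers (t : PG q)) hV1) (Sylow.ofCard U hU1)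
  have hVT : Subgroup.zpowers (t : PG q) ≤ T := by
    rw [Subgroup.zpowers_le]; exact t.2
  -- elements of `U` are conjugates of elements of `T`
  have hUT : ∀ u ∈ U, g⁻¹ * u * g ∈ T := by
    intro u hu
    have h3 : u ∈ ((Sylow.ofCard U hU1 : Sylow q (PG q)) : Subgroup (PG q)) := hu
    rw [← hg, Sylow.coe_subgroup_smul] at h3
    rw [Subgroup.mem_pointwise_smul_iff_inv_smul_mem] at h3
    have h4 : (MulAut.conj g)⁻¹ • u = g⁻¹ * u * g := by
      rw [← map_inv, MulAut.smul_def, MulAut.conj_apply, inv_inv]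
    rw [h4] at h3
    exact hVT h3
  by_cases hcase : ∀ s ∈ T, g * s * g⁻¹ ∈ B
  · right
    constructor
    · have : Group.IsSolvable B := hUB.sol
      let f : T →* B := ((MulAut.conj g).toMonoidHom.comp T.subtype).codRestrict B
        (fun s => hcase s s.2)
      have hf : Function.Injective f := by
        intro x y hxy
        have h5 : g * (x : PG q) * g⁻¹ = g * (y : PG q) * g⁻¹ := congrArg Subtype.val hxy
        have h6 : (x : PG q) = y := by
          exact mul_left_cancel (mul_right_cancel h5)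
        exact Subtype.ext h6
      exact Group.isSolvable_of_isSolvable_injective hf
    · rw [← hUB.crS]
      apply Nat.mul_le_mul_left
      let φ : (T ⊓ PS q : Subgroup (PG q)) → (B ⊓ PS q : Subgroup (PG q)) :=
        fun s => ⟨g * s * g⁻¹, hcase s s.2.1, hnor.conj_mem s s.2.2 g⟩
      apply Nat.card_le_card_of_injective φ
      intro x y hxy
      have h5 : g * (x : PG q) * g⁻¹ = g * (y : PG q) * g⁻¹ := congrArg Subtype.val hxy
      exact Subtype.ext (mul_left_cancel (mul_right_cancel h5))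
  · left
    push Not at hcase
    obtain ⟨s, hs, hsB⟩ := hcase
    have hgen := hUB.gen (T.map (MulAut.conj g).toMonoidHom) (g * s * g⁻¹) hsB
      (by
        intro u hu
        refine ⟨g⁻¹ * u * g, hUT u hu, ?_⟩
        change g * (g⁻¹ * u * g) * g⁻¹ = u
        group)
      (by
        intro u hu
        refine ⟨s * (g⁻¹ * u * g) * s⁻¹, T.mul_mem (T.mul_mem hs (hUT u hu)) (T.inv_mem hs), ?_⟩
        change g * (s * (g⁻¹ * u * g) * s⁻¹) * g⁻¹ = g * s * g⁻¹ * u * (g * s * g⁻¹)⁻¹
        group)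
    intro x hx
    have h6 : g * x * g⁻¹ ∈ T.map (MulAut.conj g).toMonoidHom := hgen (hnor.conj_mem x hx g)
    obtain ⟨y, hy, hyx⟩ := h6
    have h7' : g * y * g⁻¹ = g * x * g⁻¹ := hyx
    have h8 : y = x := mul_left_cancel (mul_right_cancel h7')
    rw [← h8]; exact hy

end Pool.Agent.H2.FIB
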